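import Pool.Agent.Helper48.WeissJ.Goals

/-! MP_6b0aee_an, packet BASE1. -/

open Set Filter Topology

namespace Pool.Agent.Helper49.WeissJ

open Pool.Agent.Helper48.WeissJ

universe u

/-- The coding by the balls of radius `κ` around the points `z i`. -/
noncomputable def qb {X : Type*} [MetricSpace X] {n : ℕ} (z : Fin n → X) (κ ω : ℝ) :
    (Fin n → Bool) → X → ℝ :=
  fun a x => ∏ i, if a i then dn κ ω (dist x (z i)) else up κ ω (dist x (z i))

theorem isCoding_qb {X : Type*} [MetricSpace X] {n : ℕ} (z : Fin n → X) (κ : ℝ) {ω : ℝ}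
    (hω : 0 < ω) : IsCoding (qb z κ ω) where
  cont := by
    intro a
    unfold qb
    refine continuous_finsetProd _ (fun i _ => ?_)
    split_ifs
    · exact continuous_const.min ((continuous_const.max
        (continuous_const.sub (continuous_id.dist continuous_const))).div_const _)
    · exact continuous_const.min ((continuous_const.max
        ((continuous_id.dist continuous_const).sub continuous_const)).div_const _)
  nonneg := by
    intro a x
    refine Finset.prod_nonneg (fun i _ => ?_)
    split_ifs
    · exact dn_nonneg _ hω _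
    · exact up_nonneg _ hω _
  le_one := by
    intro a x
    refine Finset.prod_le_one (fun i _ => ?_) (fun i _ => ?_)
    · split_ifs
      · exact dn_nonneg _ hω _
      · exact up_nonneg _ hω _
    · split_ifs
      · exact dn_le_one _ _ _
      · exact up_le_one _ _ _
  disj := by
    intro a b x hab
    obtain ⟨i, hi⟩ := Function.ne_iff.1 hab
    rcases le_total (dist x (z i)) κ with h | h
    · have h0 := up_eq_zero (ω := ω) h
      cases ha : a i
      · left
        refine Finset.prod_eq_zero (Finset.mem_univ i) ?_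
        rw [ha]
        simpa using h0
      · right
        have hb : b i = false := by
          cases hb : b i
          · rfl
          · exact absurd (ha.trans hb.symm) hi
        refine Finset.prod_eq_zero (Finset.mem_univ i) ?_
        rw [hb]
        simpa using h0
    · have h0 := dn_eq_zero (ω := ω) h
      cases ha : a i
      · right
        have hb : b i = true := by
          cases hb : b i
          · exact absurd (ha.trans hb.symm) hi
          · rfl
        refine Finset.prod_eq_zero (Finset.mem_univ i) ?_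
        rw [hb]
        simpa using h0
      · left
        refine Finset.prod_eq_zero (Finset.mem_univ i) ?_
        rw [ha]
        simpa using h0

theorem qb_pos {X : Type*} [MetricSpace X] {n : ℕ} {z : Fin n → X} {κ ω : ℝ}
    {a : Fin n → Bool} {x : X} (h : 0 < qb z κ ω a x) (i : Fin n) :
    (a i = true → dist x (z i) < κ) ∧ (dist x (z i) < κ → a i = true) := by
  constructor
  · intro ha
    by_contra hcon
    have h0 := dn_eq_zero (ω := ω) (not_lt.1 hcon)
    refine h.ne' (Finset.prod_eq_zero (Finset.mem_univ i) ?_)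
    rw [ha]
    simpa using h0
  · intro hd
    by_contra hcon
    have ha : a i = false := by simpa using hcon
    have h0 := up_eq_zero (ω := ω) hd.le
    refine h.ne' (Finset.prod_eq_zero (Finset.mem_univ i) ?_)
    rw [ha]
    simpa using h0

/-- Packet BASE1. -/
theorem base1 (th : TH.{u, 0}) (freq : FREQ.{u}) : BASE1.{u} := by
  classical
  intro X _ _ _ F hF δ h ε hδ hε hE
  -- centres
  obtain ⟨s, -, hs⟩ := isCompact_univ.elim_nhds_subcover (fun x : X => Metric.ball x (δ / 4))
    (fun x _ => Metric.ball_mem_nhds x (by positivity))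
  obtain ⟨n, z, hz⟩ : ∃ (n : ℕ) (z : Fin n → X), ∀ x : X, ∃ i, dist x (z i) < δ / 4 := by
    refine ⟨s.card, fun i => (s.equivFin.symm i : X), fun x => ?_⟩
    have hx := hs (mem_univ x)
    rw [mem_iUnion₂] at hx
    obtain ⟨y, hy, hxy⟩ := hx
    refine ⟨s.equivFin ⟨y, hy⟩, ?_⟩
    show dist x ((s.equivFin.symm (s.equivFin ⟨y, hy⟩) : s) : X) < δ / 4
    rw [Equiv.symm_apply_apply]
    exact hxy
  obtain ⟨x₀⟩ := (inferInstance : Nonempty X)
  -- the separated sets
  have hE' : ∀ g : ℕ, ∃ E : Finset X, E.Nonempty ∧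
      (∀ x ∈ E, ∀ y ∈ E, x ≠ y → ∃ t < g, δ < dist (F^[t] x) (F^[t] y)) ∧
      Real.exp (h * g) ≤ E.card := by
    intro g
    rcases Nat.eq_zero_or_pos g with rfl | hg
    · refine ⟨{x₀}, Finset.singleton_nonempty _, ?_, ?_⟩
      · intro x hx y hy hxy
        rw [Finset.mem_singleton] at hx hy
        exact absurd (hx.trans hy.symm) hxy
      · simp
    · obtain ⟨E, h1, h2⟩ := hE g hg
      refine ⟨E, ?_, h1, h2⟩
      rw [← Finset.card_pos]
      have h3 := (Real.exp_pos (h * g)).trans_le h2
      exact_mod_cast h3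
  choose E hEne hEsep hEcard using hE'
  obtain ⟨κ, hκ, ω, hω, hfr⟩ := th (fun g => {x // x ∈ E g}) (fun g => Fin g × Fin n) n
    (by intro g; simp [Fintype.card_prod, mul_comm])
    (fun g _ => 1) (fun _ _ => zero_le_one)
    (by
      intro g
      rw [Finset.sum_const, Finset.card_univ, nsmul_eq_mul, mul_one]
      have : 0 < Fintype.card {x // x ∈ E g} := by
        rw [Fintype.card_coe, Finset.card_pos]
        exact hEne g
      exact_mod_cast this)
    (fun g y l => dist (F^[l.1] y.1) (z l.2)) (δ / 4) (δ / 2) ε (by linarith) hε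
  have hq := isCoding_qb z κ hω
  have hsupp : ∀ a x y, 0 < qb z κ ω a x → 0 < qb z κ ω a y → dist x y ≤ δ := by
    intro a x y hx hy
    obtain ⟨i, hi⟩ := hz x
    have h1 : a i = true := (qb_pos hx i).2 (hi.trans hκ.1)
    have h2 := (qb_pos hy i).1 h1
    have h3 := dist_triangle_right x y (z i)
    have h4 := hκ.2
    linarith
  refine ⟨Fin n → Bool, inferInstance, qb z κ ω, hq, hsupp, ?_⟩
  refine (freq X (Fin n → Bool) F (qb z κ ω) hq).1 (h - ε) ?_
  refine hfr.mono (fun g hg => ?_)
  -- the words of the points of `E g`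
  set wd : X → Fin g → (Fin n → Bool) := fun y t i => decide (dist (F^[t] y) (z i) < κ) with hwd
  have hP : ∀ y : X, ∏ l : Fin g × Fin n, min 1 (|dist (F^[l.1] y) (z l.2) - κ| / ω) =
      qw F (qb z κ ω) g (wd y) y := by
    intro y
    rw [Fintype.prod_prod_type]
    unfold qw qb
    refine Finset.prod_congr rfl (fun t _ => Finset.prod_congr rfl (fun i _ => ?_))
    by_cases hlt : dist (F^[t] y) (z i) < κ
    · have : wd y t i = true := by rw [hwd]; simpa using hlt
      rw [this, if_pos rfl, dn_eq hlt.le]
    · have : wd y t i = false := by rw [hwd]; simpa using hlt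
      rw [this]
      simp only [Bool.false_eq_true, if_false]
      rw [up_eq (not_lt.1 hlt)]
  have hsum : ∑ y ∈ E g, qw F (qb z κ ω) g (wd y) y ≤ cap F (qb z κ ω) g univ := by
    set E' := (E g).filter (fun y => 0 < qw F (qb z κ ω) g (wd y) y) with hE'
    have h1 : ∑ y ∈ E g, qw F (qb z κ ω) g (wd y) y = ∑ y ∈ E', qw F (qb z κ ω) g (wd y) y := by
      rw [hE', Finset.sum_filter]
      refine Finset.sum_congr rfl (fun y _ => ?_)
      split_ifs with hy
      · rfl
      · exact le_antisymm (not_lt.1 hy) (hq.qw_nonneg _ _ _)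
    have hinj : Set.InjOn wd (E' : Set X) := by
      intro y hy y' hy' hw
      rw [Finset.mem_coe, hE', Finset.mem_filter] at hy hy'
      by_contra hne
      obtain ⟨t, ht, hlt⟩ := hEsep g y hy.1 y' hy'.1 hne
      have h2 := hq.pos_of_qw_pos hy.2 ⟨t, ht⟩
      have h3 := hq.pos_of_qw_pos hy'.2 ⟨t, ht⟩
      rw [← hw] at h3
      exact absurd hlt (not_lt.2 (hsupp _ _ _ h2 h3))
    rw [h1]
    calc ∑ y ∈ E', qw F (qb z κ ω) g (wd y) y ≤ ∑ y ∈ E', top F (qb z κ ω) g (wd y) univ :=
          Finset.sum_le_sum (fun y _ => hq.le_top (mem_univ y))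
      _ = ∑ w ∈ E'.image wd, top F (qb z κ ω) g w univ := by
          rw [Finset.sum_image hinj]
      _ ≤ ∑ w, top F (qb z κ ω) g w univ :=
          Finset.sum_le_sum_of_subset_of_nonneg (Finset.subset_univ _)
            (fun w _ _ => hq.top_nonneg _ _ _)
  simp only [one_mul, Finset.sum_const, Finset.card_univ, nsmul_eq_mul, mul_one,
    Fintype.card_coe] at hg
  calc Real.exp ((h - ε) * g) = Real.exp (-(ε * g)) * Real.exp (h * g) := by
        rw [← Real.exp_add]; congr 1; ring
    _ ≤ Real.exp (-(ε * g)) * (E g).card :=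
        mul_le_mul_of_nonneg_left (hEcard g) (Real.exp_pos _).le
    _ ≤ _ := hg
    _ = ∑ y ∈ E g, qw F (qb z κ ω) g (wd y) y := by
        rw [← Finset.sum_coe_sort (E g) (fun y => qw F (qb z κ ω) g (wd y) y)]
        exact Finset.sum_congr rfl (fun y _ => hP y.1)
    _ ≤ _ := hsum

end Pool.Agent.Helper49.WeissJ
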