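import Pool.Agent.Helper48.WeissJ.Goals

/-! MP_6b0aee_an, packet BASE2. -/

open Set Filter Topology

namespace Pool.Agent.Helper49.WeissJ

open Pool.Agent.Helper48.WeissJ

universe u

theorem cap_one_eq {X Λ : Type*} [Fintype Λ] (F : X → X) (q : Λ → X → ℝ) (Y : Set X) :
    cap F q 1 Y = ∑ a : Λ, top F q 1 (fun _ => a) Y := by
  unfold cap
  rw [← (Equiv.funUnique (Fin 1) Λ).symm.sum_comp]
  rfl

theorem top_one_le {X Λ : Type*} (F : X → X) (q : Λ → X → ℝ) (a : Λ) (Y : Set X) {c : ℝ}
    (hc : 0 ≤ c) (h : ∀ y ∈ Y, q a y ≤ c) : top F q 1 (fun _ => a) Y ≤ c := by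
  refine top_le hc (fun y hy => ?_)
  unfold qw
  rw [Fin.prod_univ_one]
  exact h y hy

theorem cap_one_ball {X Λ : Type*} [MetricSpace X] [CompactSpace X] [Fintype Λ] (F : X → X)
    {q : Λ → X → ℝ} (hq : IsCoding q) :
    ∃ ρ > 0, ∀ x : X, cap F q 1 {y | dist x y < ρ} ≤ 1 := by
  classical
  set η : ℝ := 1 / (2 * ((Fintype.card Λ : ℝ) + 1)) with hη
  have hcard : (0 : ℝ) ≤ Fintype.card Λ := Nat.cast_nonneg _
  have hη0 : 0 < η := by rw [hη]; positivity
  have hcont : Continuous (fun (x : X) (a : Λ) => q a x) := continuous_pi (fun a => hq.cont a)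
  have hu := CompactSpace.uniformContinuous_of_continuous hcont
  rw [Metric.uniformContinuous_iff] at hu
  obtain ⟨ρ, hρ, hu⟩ := hu η hη0
  have hclose : ∀ {x y : X}, dist x y < ρ → ∀ a, |q a x - q a y| < η := by
    intro x y hxy a
    have h1 := hu hxy
    rw [dist_pi_lt_iff hη0] at h1
    have := h1 a
    rwa [Real.dist_eq] at this
  refine ⟨ρ, hρ, fun x => ?_⟩
  rw [cap_one_eq]
  by_cases hA : ∃ a, η ≤ q a x
  · obtain ⟨a, ha⟩ := hA
    have h1 : ∀ b : Λ, top F q 1 (fun _ => b) {y | dist x y < ρ} ≤ if b = a then 1 else 0 := by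
      intro b
      split_ifs with hba
      · exact hq.top_le_one _ _ _
      · refine top_one_le F q b _ le_rfl (fun y hy => ?_)
        have h2 := hclose hy a
        rw [abs_lt] at h2
        have h3 : 0 < q a y := by linarith [h2.2]
        rcases hq.disj b a y hba with h4 | h4
        · exact h4.le
        · exact absurd h4 h3.ne'
    refine (Finset.sum_le_sum (fun b _ => h1 b)).trans ?_
    rw [Finset.sum_ite_eq' Finset.univ a (fun _ => (1 : ℝ))]
    simp
  · push Not at hA
    have h1 : ∀ b : Λ, top F q 1 (fun _ => b) {y | dist x y < ρ} ≤ 2 * η := by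
      intro b
      refine top_one_le F q b _ (by positivity) (fun y hy => ?_)
      have h2 := hclose hy b
      rw [abs_lt] at h2
      have h3 := hA b
      linarith [h2.1]
    refine (Finset.sum_le_sum (fun b _ => h1 b)).trans ?_
    rw [Finset.sum_const, Finset.card_univ, nsmul_eq_mul, hη]
    rw [show (Fintype.card Λ : ℝ) * (2 * (1 / (2 * ((Fintype.card Λ : ℝ) + 1)))) =
      (Fintype.card Λ : ℝ) / ((Fintype.card Λ : ℝ) + 1) by field_simp]
    rw [div_le_one (by positivity)]
    linarith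

/-- Packet BASE2. -/
theorem base2 : BASE2.{u} := by
  intro X _ _ Λ _ F q hq
  obtain ⟨ρ, hρ, hball⟩ := cap_one_ball F hq
  refine ⟨ρ, hρ, 1, fun g x => ?_⟩
  rw [zero_mul, Real.exp_zero, mul_one]
  induction g with
  | zero => exact cap_zero_le F q _
  | succ g ih =>
    have h1 : cap F q (g + 1) (star F {z : X × X | dist z.1 z.2 < ρ} (g + 1) x) ≤
        cap F q g (star F {z : X × X | dist z.1 z.2 < ρ} (g + 1) x) *
          cap F q 1 {y | dist (F^[g] x) y < ρ} := by
      refine hq.cap_add_le (fun y hy => ?_)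
      exact hy g (Nat.lt_succ_self g)
    have h2 : cap F q g (star F {z : X × X | dist z.1 z.2 < ρ} (g + 1) x) ≤ 1 := by
      refine (hq.cap_mono ?_).trans ih
      intro y hy s hs
      exact hy s (hs.trans (Nat.lt_succ_self g))
    refine h1.trans ?_
    exact mul_le_one₀ h2 (hq.cap_nonneg _ _) (hball _)

end Pool.Agent.Helper49.WeissJ
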