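import Pool.Agent.Helper48.WeissJ.Goals
import Pool.Agent.Helper50.Weiss.Cover

/-! MP_6b0aee_an, packet BASE3. -/

open Set Filter Topology

namespace Pool.Agent.Helper49.WeissJ

open Pool.Agent.Helper48.WeissJ
open Pool.Agent.Helper38.Weiss (covN covR)

universe u

/-- Packet BASE3. -/
theorem base3 : BASE3.{u} := by
  classical
  intro X _ _ _ Λ _ F hF q hq r κ hr hκ hsupp
  obtain ⟨T₀, hT₀⟩ := Pool.Agent.Helper50.Weiss.covN_le F hF r hr κ hκ
  obtain ⟨N, φ, hφ, hN⟩ := hT₀ (max T₀ 1) (le_max_left _ _)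
  set T := max T₀ 1 with hT
  have hT1 : 0 < T := lt_of_lt_of_le Nat.one_pos (le_max_right _ _)
  obtain ⟨x₀⟩ := (inferInstance : Nonempty X)
  set ν : (Fin (T + 0) → Λ) → Fin N := fun w =>
    if h : ∃ x, 0 < qw F q (T + 0) w x then φ h.choose else φ x₀ with hν
  have key : ∀ (w : Fin (T + 0) → Λ) (x : X), 0 < qw F q (T + 0) w x →
      ∃ z, ν w = φ z ∧ ∀ s < T, dist (F^[s] x) (F^[s] z) ≤ r / 4 := by
    intro w x hx
    have hex : ∃ x, 0 < qw F q (T + 0) w x := ⟨x, hx⟩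
    refine ⟨hex.choose, ?_, fun s hs => ?_⟩
    · rw [hν]
      exact dif_pos hex
    · have h1 := hq.pos_of_qw_pos hx ⟨s, hs⟩
      have h2 := hq.pos_of_qw_pos hex.choose_spec ⟨s, hs⟩
      exact hsupp _ _ _ h1 h2
  refine ⟨T, 0, N, ν, φ, hT1, ?_, ?_, ?_⟩
  · rw [mul_comm]
    exact hN
  · intro x y hxy s hs
    have h1 := hφ x y hxy s hs
    show dist (F^[s] x) (F^[s] y) ≤ 3 / 2 * r
    linarith
  · intro w w' x y hx hy hww s hs
    obtain ⟨z, hz1, hz2⟩ := key w x hx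
    obtain ⟨z', hz1', hz2'⟩ := key w' y hy
    have h1 := hz2 s hs
    have h2 := hz2' s hs
    have h3 := hφ z z' (by rw [← hz1, ← hz1', hww]) s hs
    have h4 := dist_triangle4 (F^[s] x) (F^[s] z) (F^[s] z') (F^[s] y)
    rw [dist_comm (F^[s] z') (F^[s] y)] at h4
    show dist (F^[s] x) (F^[s] y) ≤ 3 / 2 * r
    linarith

end Pool.Agent.Helper49.WeissJ
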