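import Pool.Agent.Helper48.WeissJ.Goals

/-! MP_6b0aee_an, packet REN. -/

open Set Filter Topology

namespace Pool.Agent.Helper49.WeissJ

open Pool.Agent.Helper48.WeissJ

universe u

/-- Packet REN. -/
theorem ren : REN.{u} := by
  intro X Λ _ _ _ F q hq E θ hθ Lm I _ ℓ k hℓ hk hsum hY
  have ha : (1 : ℝ) ≤ Fintype.card Λ := by exact_mod_cast Fintype.card_pos
  refine ⟨(Fintype.card Λ : ℝ) ^ Lm, fun g => ?_⟩
  induction g using Nat.strong_induction_on with
  | _ g ih =>
    intro x
    rcases lt_or_ge g Lm with hg | hg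
    · calc cap F q g (star F E g x) ≤ (Fintype.card Λ : ℝ) ^ g := hq.cap_le_pow _ _
        _ ≤ (Fintype.card Λ : ℝ) ^ Lm := pow_le_pow_right₀ ha hg.le
        _ ≤ (Fintype.card Λ : ℝ) ^ Lm * Real.exp (θ * g) := by
          refine le_mul_of_one_le_right (by positivity) ?_
          rw [← Real.exp_zero]
          exact Real.exp_le_exp.2 (by positivity)
    · obtain ⟨Y, hY1, hY2⟩ := hY x
      have hcov : star F E g x ⊆ ⋃ i, (Y i ∩ star F E g x) := by
        intro y hy
        have h1 : y ∈ star F E Lm x := fun s hs => hy s (hs.trans_le hg)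
        obtain ⟨i, hi⟩ := mem_iUnion.1 (hY1 h1)
        exact mem_iUnion.2 ⟨i, hi, hy⟩
      refine (hq.cap_iUnion_le hcov).trans ?_
      have hterm : ∀ i, cap F q g (Y i ∩ star F E g x) ≤
          k i * ((Fintype.card Λ : ℝ) ^ Lm * Real.exp (θ * g)) := by
        intro i
        obtain ⟨h1, h2⟩ := hℓ i
        obtain ⟨j, hj⟩ : ∃ j, g = ℓ i + j := ⟨g - ℓ i, by omega⟩
        have hjg : j < g := by omega
        have h3 : cap F q g (Y i ∩ star F E g x) ≤
            cap F q (ℓ i) (Y i ∩ star F E g x) * cap F q j (star F E j (F^[ℓ i] x)) := by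
          rw [hj]
          refine hq.cap_add_le (fun y hy s hs => ?_)
          have h4 := hy.2 (s + ℓ i) (by omega)
          rw [Function.iterate_add_apply, Function.iterate_add_apply] at h4
          exact h4
        have h5 : cap F q (ℓ i) (Y i ∩ star F E g x) ≤ k i * Real.exp (θ * ℓ i) :=
          (hq.cap_mono inter_subset_left).trans (hY2 i)
        have h6 := ih j hjg (F^[ℓ i] x)
        calc cap F q g (Y i ∩ star F E g x)
            ≤ cap F q (ℓ i) (Y i ∩ star F E g x) * cap F q j (star F E j (F^[ℓ i] x)) := h3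
          _ ≤ (k i * Real.exp (θ * ℓ i)) *
              ((Fintype.card Λ : ℝ) ^ Lm * Real.exp (θ * j)) :=
            mul_le_mul h5 h6 (hq.cap_nonneg _ _)
              (mul_nonneg (hk i) (Real.exp_pos _).le)
          _ = k i * ((Fintype.card Λ : ℝ) ^ Lm * Real.exp (θ * g)) := by
            have h7 : Real.exp (θ * g) = Real.exp (θ * ℓ i) * Real.exp (θ * j) := by
              rw [← Real.exp_add, hj]
              congr 1
              push_cast
              ring
            rw [h7]
            ring
      calc ∑ i, cap F q g (Y i ∩ star F E g x)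
          ≤ ∑ i, k i * ((Fintype.card Λ : ℝ) ^ Lm * Real.exp (θ * g)) :=
            Finset.sum_le_sum (fun i _ => hterm i)
        _ = (∑ i, k i) * ((Fintype.card Λ : ℝ) ^ Lm * Real.exp (θ * g)) := by
            rw [Finset.sum_mul]
        _ ≤ 1 * ((Fintype.card Λ : ℝ) ^ Lm * Real.exp (θ * g)) :=
            mul_le_mul_of_nonneg_right hsum (by positivity)
        _ = _ := one_mul _

end Pool.Agent.Helper49.WeissJ
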