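import Pool.Agent.Helper48.WeissJ.Goals

/-! MP_6b0aee_an, packet TOPO. -/

open Set Filter Topology

namespace Pool.Agent.Helper49.WeissJ

open Pool.Agent.Helper48.WeissJ
open Pool.Agent.Helper38.Weiss (Sym)

universe u

theorem chn_eq {X : Type*} (F : X → X) (T m : ℕ) (Sh : Set (X × X)) :
    Chn F T m Sh = ⋃ u ∈ Finset.range T, ⋂ k ∈ Finset.range m,
      (fun z : X × X => (F^[u + k * T] z.1, F^[u + k * T] z.2)) ⁻¹' Sh := by
  ext z
  simp only [Chn, mem_ofPred_eq, mem_iUnion, mem_iInter, Finset.mem_range, mem_preimage,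
    exists_prop]

theorem continuous_pair {X : Type*} [TopologicalSpace X] {F : X → X} (hF : Continuous F) (j : ℕ) :
    Continuous (fun z : X × X => (F^[j] z.1, F^[j] z.2)) :=
  ((hF.iterate j).comp continuous_fst).prodMk ((hF.iterate j).comp continuous_snd)

theorem isClosed_chn {X : Type*} [TopologicalSpace X] {F : X → X} (hF : Continuous F) (T m : ℕ)
    {Sh : Set (X × X)} (h : IsClosed Sh) : IsClosed (Chn F T m Sh) := by
  rw [chn_eq]
  refine isClosed_biUnion_finset (fun u _ => isClosed_biInter (fun k _ => ?_))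
  exact h.preimage (continuous_pair hF _)

theorem isOpen_chn {X : Type*} [TopologicalSpace X] {F : X → X} (hF : Continuous F) (T m : ℕ)
    {Sh : Set (X × X)} (h : IsOpen Sh) : IsOpen (Chn F T m Sh) := by
  rw [chn_eq]
  refine isOpen_biUnion (fun u _ => isOpen_biInter_finset (fun k _ => ?_))
  exact h.preimage (continuous_pair hF _)

theorem chn_mono {X : Type*} (F : X → X) (T m : ℕ) {Sh Sh' : Set (X × X)} (h : Sh ⊆ Sh') :
    Chn F T m Sh ⊆ Chn F T m Sh' := by
  rintro z ⟨u, hu, hz⟩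
  exact ⟨u, hu, fun k hk => h (hz k hk)⟩

theorem sym_chn {X : Type*} (F : X → X) (T m : ℕ) {Sh : Set (X × X)} (h : Sym Sh) :
    Sym (Chn F T m Sh) := by
  rintro x y ⟨u, hu, hz⟩
  exact ⟨u, hu, fun k hk => h _ _ (hz k hk)⟩

theorem isClosed_sh0 {X Λ ι : Type*} [TopologicalSpace X] [Fintype Λ] {F : X → X}
    (hF : Continuous F) {q : Λ → X → ℝ} (hq : IsCoding q) (L : ℕ) (bin : (Fin L → Λ) → ι)
    (κ : ℝ) : IsClosed (Sh₀ F q L bin κ) := by
  have h1 : Sh₀ F q L bin κ = (⋃ w : Fin L → Λ, ⋃ w' : Fin L → Λ,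
      {z : X × X | bin w = bin w' ∧ κ ≤ qw F q L w z.1 ∧ κ ≤ qw F q L w' z.2}) ∪
      {z : X × X | tot F q L z.1 ≤ κ ∧ tot F q L z.2 ≤ κ} := by
    ext z
    simp only [Sh₀, mem_ofPred_eq, mem_union, mem_iUnion]
  rw [h1]
  refine IsClosed.union ?_ ?_
  · refine isClosed_iUnion_of_finite (fun w => isClosed_iUnion_of_finite (fun w' => ?_))
    refine isClosed_const.and (IsClosed.and ?_ ?_)
    · exact isClosed_le continuous_const ((continuous_qw hF hq L w).comp continuous_fst)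
    · exact isClosed_le continuous_const ((continuous_qw hF hq L w').comp continuous_snd)
  · refine IsClosed.and ?_ ?_
    · exact isClosed_le ((continuous_tot hF hq L).comp continuous_fst) continuous_const
    · exact isClosed_le ((continuous_tot hF hq L).comp continuous_snd) continuous_const

theorem isOpen_sh1 {X Λ ι : Type*} [TopologicalSpace X] [Fintype Λ] {F : X → X}
    (hF : Continuous F) {q : Λ → X → ℝ} (hq : IsCoding q) (L : ℕ) (bin : (Fin L → Λ) → ι)
    (b : ℝ) : IsOpen (Sh₁ F q L bin b) := by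
  have h1 : Sh₁ F q L bin b = (⋃ w : Fin L → Λ, ⋃ w' : Fin L → Λ,
      {z : X × X | bin w = bin w' ∧ 0 < qw F q L w z.1 ∧ 0 < qw F q L w' z.2}) ∪
      {z : X × X | tot F q L z.1 < b ∧ tot F q L z.2 < b} := by
    ext z
    simp only [Sh₁, mem_ofPred_eq, mem_union, mem_iUnion]
  rw [h1]
  refine IsOpen.union ?_ ?_
  · refine isOpen_iUnion (fun w => isOpen_iUnion (fun w' => ?_))
    refine isOpen_const.and (IsOpen.and ?_ ?_)
    · exact isOpen_lt continuous_const ((continuous_qw hF hq L w).comp continuous_fst)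
    · exact isOpen_lt continuous_const ((continuous_qw hF hq L w').comp continuous_snd)
  · refine IsOpen.and ?_ ?_
    · exact isOpen_lt ((continuous_tot hF hq L).comp continuous_fst) continuous_const
    · exact isOpen_lt ((continuous_tot hF hq L).comp continuous_snd) continuous_const

/-- Packet TOPO. -/
theorem topo : TOPO.{u} := by
  intro X Λ _ _ F hF q hq T m L N₁ bin κ b hκ hκb
  refine ⟨isClosed_chn hF T m (isClosed_sh0 hF hq L bin κ),
    isOpen_chn hF T m (isOpen_sh1 hF hq L bin b), chn_mono F T m ?_, sym_chn F T m ?_,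
    sym_chn F T m ?_⟩
  · rintro z (⟨w, w', h1, h2, h3⟩ | ⟨h1, h2⟩)
    · exact Or.inl ⟨w, w', h1, hκ.trans_le h2, hκ.trans_le h3⟩
    · exact Or.inr ⟨h1.trans_lt hκb, h2.trans_lt hκb⟩
  · rintro x y (⟨w, w', h1, h2, h3⟩ | ⟨h1, h2⟩)
    · exact Or.inl ⟨w', w, h1.symm, h3, h2⟩
    · exact Or.inr ⟨h2, h1⟩
  · rintro x y (⟨w, w', h1, h2, h3⟩ | ⟨h1, h2⟩)
    · exact Or.inl ⟨w', w, h1.symm, h3, h2⟩
    · exact Or.inr ⟨h2, h1⟩

end Pool.Agent.Helper49.WeissJ
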